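import Pool.Agent.FHQ.StmtsP

/-!
# Squad FHQ, row UBE: a quantifier over a residue and a quantifier over a valuation
-/

set_option autoImplicit false

noncomputable section

namespace Pool.Agent.FHQ.H32

/-- the projection of a box -/
def pbx {r : ℕ} (b : Box (r + 1)) : Box r where
  R := fun p a => ∃ z, b.R p (Fin.cons z a)
  B := fun g => ∃ h, b.B (Fin.cons h g)
  hR := RD.ex b.hR
  hB := PD.ex b.hB

/-- UBE -/
theorem ube : UbeStmt := by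
  intro r C hC
  obtain ⟨L, hL⟩ := hC
  refine ⟨L.map pbx, ?_⟩
  intro p a g
  constructor
  · rintro ⟨z, h, hz⟩
    obtain ⟨b, hb, h1, h2⟩ := (hL p _ _).1 hz
    exact ⟨pbx b, List.mem_map.2 ⟨b, hb, rfl⟩, ⟨z, h1⟩, ⟨h, h2⟩⟩
  · rintro ⟨b', hb', h1, h2⟩
    obtain ⟨b, hb, rfl⟩ := List.mem_map.1 hb'
    obtain ⟨z, hz⟩ := h1
    obtain ⟨h, hh⟩ := h2
    exact ⟨z, h, (hL p _ _).2 ⟨b, hb, hz, hh⟩⟩

end Pool.Agent.FHQ.H32
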